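import Pool.Agent.H292Z.Block

set_option autoImplicit false

/-- The block sets conjecture for the template `112233` (letters written `0,1,2`). -/
theorem Pool.Agent.Results.MP_f451a5_co.ABlockSets112233.result :
    ∀ k : ℕ, 0 < k → ∃ n d : ℕ, 0 < n ∧ 0 < d ∧
      ∀ c : (Fin n → Fin 3) → Fin k,
        ∃ I : Fin 6 → Finset (Fin n), ∃ a : Fin n → Fin 3, ∃ col : Fin k,
          (∀ j, (I j).card = d) ∧
          (Pairwise fun j j' => Disjoint (I j) (I j')) ∧
          ∀ w : Fin n → Fin 3,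
            ((∀ i, (∀ j, i ∉ I j) → w i = a i) ∧
              ∃ σ : Equiv.Perm (Fin 6), ∀ j, ∀ i ∈ I j,
                w i = (![0, 0, 1, 1, 2, 2] : Fin 6 → Fin 3) (σ j)) →
            c w = col := by
  intro k hk
  obtain ⟨d, hd, h⟩ := Pool.Agent.H292Z.blockSets 3 6 (by norm_num) ![0, 0, 1, 1, 2, 2]
  obtain ⟨n, hn, h⟩ := h k hk
  exact ⟨n, d, hn, hd, h⟩
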